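import Mathlib

/-!
# Independent sets in triangle-free graphs (Ajtai, Komlos, Szemeredi; Shearer; proof of Alon)

If all degrees inside `U` are at most `d` and `G` is triangle-free, then `U` contains an
independent set of size at least `|U| log d / (8 d)`.
-/

set_option autoImplicit false
set_option linter.unusedSectionVars false

namespace Sat3

open Finset

variable {V : Type*} [DecidableEq V] (G : SimpleGraph V) [DecidableRel G.Adj]

/-- independent finite sets -/
def Ind (I : Finset V) : Prop := ∀ u ∈ I, ∀ v ∈ I, ¬ G.Adj u v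

instance (I : Finset V) : Decidable (Ind G I) := by unfold Ind; infer_instance

variable {G}

theorem Ind.mono {I J : Finset V} (h : Ind G J) (hIJ : I ⊆ J) : Ind G I :=
  fun u hu v hv => h u (hIJ hu) v (hIJ hv)

theorem ind_empty : Ind G ∅ := fun _ h => absurd h (by simp)

theorem sum_card_powerset (A : Finset V) :
    2 * ∑ T ∈ A.powerset, (T.card : ℝ) = A.card * 2 ^ A.card := by
  have h1 : ∑ T ∈ A.powerset, (T.card : ℝ) = ∑ T ∈ A.powerset, ((A \ T).card : ℝ) := by
    refine Finset.sum_nbij' (fun T => A \ T) (fun T => A \ T) ?_ ?_ ?_ ?_ ?_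
    · intro T _; simp
    · intro T _; simp
    · intro T hT; exact Finset.sdiff_sdiff_eq_self (Finset.mem_powerset.1 hT)
    · intro T hT; exact Finset.sdiff_sdiff_eq_self (Finset.mem_powerset.1 hT)
    · intro T hT
      rw [Finset.sdiff_sdiff_eq_self (Finset.mem_powerset.1 hT)]
  have h2 : ∑ T ∈ A.powerset, ((T.card : ℝ) + ((A \ T).card : ℝ)) = A.card * 2 ^ A.card := by
    have : ∀ T ∈ A.powerset, ((T.card : ℝ) + ((A \ T).card : ℝ)) = A.card := by
      intro T hT
      rw [add_comm]
      exact_mod_cast Finset.card_sdiff_add_card_eq_card (Finset.mem_powerset.1 hT)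
    rw [Finset.sum_congr rfl this, Finset.sum_const, Finset.card_powerset, nsmul_eq_mul]
    push_cast
    ring
  rw [← h2, Finset.sum_add_distrib, ← h1]
  ring

theorem numeric {d : ℝ} (hd : 1 ≤ d) (x : ℕ) :
    Real.log d / 4 * (2 ^ x + 1) ≤ d + x * 2 ^ x / 2 := by
  have hlog0 : 0 ≤ Real.log d := Real.log_nonneg hd
  have hlogd : Real.log d ≤ d := (Real.log_le_sub_one_of_pos (by linarith)).trans (by linarith)
  rcases le_or_gt (Real.log d / 2) x with h | h
  · have h2 : (0 : ℝ) ≤ 2 ^ x := by positivity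
    have h3 : Real.log d / 4 * 2 ^ x ≤ x * 2 ^ x / 2 := by nlinarith
    linarith
  · have hs : 0 < Real.sqrt d := Real.sqrt_pos.2 (by linarith)
    have hss : Real.sqrt d * Real.sqrt d = d := Real.mul_self_sqrt (by linarith)
    have hs1 : 1 ≤ Real.sqrt d := by
      rw [Real.one_le_sqrt]; exact hd
    have h1 : (2 : ℝ) ^ x ≤ Real.sqrt d := by
      have e1 : (2 : ℝ) ^ x ≤ Real.exp x := by
        rw [show (Real.exp (x : ℝ)) = (Real.exp 1) ^ x by
          rw [← Real.exp_nat_mul]; simp]
        refine pow_le_pow_left₀ (by norm_num) ?_ x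
        have := Real.add_one_le_exp (1 : ℝ)
        linarith
      have e2 : Real.exp x ≤ Real.exp (Real.log d / 2) := Real.exp_le_exp.2 h.le
      have e3 : Real.exp (Real.log d / 2) = Real.sqrt d := by
        rw [Real.exp_half, Real.exp_log (by linarith)]
      linarith
    have h2 : Real.log d ≤ 2 * Real.sqrt d := by
      have : Real.log d = 2 * Real.log (Real.sqrt d) := by
        rw [Real.log_sqrt (by linarith)]; ring
      rw [this]
      have := Real.log_le_sub_one_of_pos hs
      linarith
    have h3 : Real.log d / 4 * (2 ^ x + 1) ≤ (2 * Real.sqrt d) / 4 * (Real.sqrt d + 1) := by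
      apply mul_le_mul
      · linarith
      · linarith
      · positivity
      · positivity
    have h4 : (2 * Real.sqrt d) / 4 * (Real.sqrt d + 1) ≤ d := by nlinarith
    have h5 : (0 : ℝ) ≤ x * 2 ^ x / 2 := by positivity
    linarith

/-- neighbours inside `U` -/
def nbr (G : SimpleGraph V) [DecidableRel G.Adj] (U : Finset V) (v : V) : Finset V :=
  U.filter fun u => G.Adj v u

theorem mem_nbr {U : Finset V} {v u : V} : u ∈ nbr G U v ↔ u ∈ U ∧ G.Adj v u := by
  simp [nbr]

/-- all independent subsets of `U` -/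
def inds (G : SimpleGraph V) [DecidableRel G.Adj] (U : Finset V) : Finset (Finset V) :=
  U.powerset.filter fun W => Ind G W

theorem mem_inds {U W : Finset V} : W ∈ inds G U ↔ W ⊆ U ∧ Ind G W := by
  simp [inds]

/-- the local count -/
theorem local_count (hG : ∀ a b c, G.Adj a b → G.Adj b c → ¬ G.Adj a c) {U : Finset V} {d : ℝ}
    (hd : 1 ≤ d) {v : V} (hv : v ∈ U) :
    Real.log d / 4 * (inds G U).card ≤
      ∑ W ∈ inds G U, ((if v ∈ W then d else 0) + ((nbr G U v ∩ W).card : ℝ)) := by
  classical
  set N : Finset V := insert v (nbr G U v) with hN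
  have hNv : v ∈ N := Finset.mem_insert_self _ _
  set f : Finset V → ℝ := fun W => (if v ∈ W then d else 0) + ((nbr G U v ∩ W).card : ℝ) with hf
  have hf0 : ∀ W, 0 ≤ f W := fun W => by
    simp only [hf]
    split_ifs <;> positivity
  set im := (inds G U).image (fun W => W \ N) with him
  have hmaps : ∀ W ∈ inds G U, W \ N ∈ im := fun W hW => Finset.mem_image_of_mem _ hW
  have hcard : ((inds G U).card : ℝ) =
      ∑ S ∈ im, (((inds G U).filter fun W => W \ N = S).card : ℝ) := by
    exact_mod_cast Finset.card_eq_sum_card_fiberwise hmaps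
  have hsum : ∑ W ∈ inds G U, f W =
      ∑ S ∈ im, ∑ W ∈ (inds G U).filter (fun W => W \ N = S), f W :=
    (Finset.sum_fiberwise_of_maps_to hmaps f).symm
  change Real.log d / 4 * (inds G U).card ≤ ∑ W ∈ inds G U, f W
  rw [hcard, hsum, Finset.mul_sum]
  refine Finset.sum_le_sum fun S hS => ?_
  obtain ⟨W0, hW0, rfl⟩ := Finset.mem_image.1 hS
  obtain ⟨hW0U, hW0i⟩ := mem_inds.1 hW0
  set S : Finset V := W0 \ N with hSdef
  have hSU : S ⊆ U := Finset.sdiff_subset.trans hW0U
  have hSi : Ind G S := hW0i.mono Finset.sdiff_subset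
  have hSN : ∀ s ∈ S, s ∉ N := fun s hs => (Finset.mem_sdiff.1 hs).2
  have hvS : v ∉ S := fun h => hSN v h hNv
  set A : Finset V := (nbr G U v).filter fun u => ∀ s ∈ S, ¬ G.Adj u s with hA
  have hAN : ∀ a ∈ A, a ∈ U ∧ G.Adj v a ∧ ∀ s ∈ S, ¬ G.Adj a s := by
    intro a ha
    obtain ⟨h1, h2⟩ := Finset.mem_filter.1 ha
    exact ⟨(mem_nbr.1 h1).1, (mem_nbr.1 h1).2, h2⟩
  have hvA : v ∉ A := fun h => G.loopless.irrefl v (hAN v h).2.1
  have hSA : ∀ s ∈ S, s ∉ A := by
    intro s hs ha
    exact hSN s hs (Finset.mem_insert_of_mem (mem_nbr.2 ⟨(hAN s ha).1, (hAN s ha).2.1⟩))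
  have hfib : (inds G U).filter (fun W => W \ N = S) =
      insert (insert v S) (A.powerset.image fun T => S ∪ T) := by
    ext W
    rw [Finset.mem_filter, mem_inds, Finset.mem_insert, Finset.mem_image]
    constructor
    · rintro ⟨⟨hWU, hWi⟩, hWS⟩
      by_cases hvW : v ∈ W
      · left
        ext u
        rw [Finset.mem_insert]
        constructor
        · intro hu
          by_cases huv : u = v
          · exact Or.inl huv
          · right
            rw [← hWS, Finset.mem_sdiff]
            refine ⟨hu, fun h => ?_⟩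
            rcases Finset.mem_insert.1 h with h | h
            · exact huv h
            · exact hWi v hvW u hu (mem_nbr.1 h).2
        · rintro (rfl | hu)
          · exact hvW
          · rw [← hWS] at hu
            exact (Finset.mem_sdiff.1 hu).1
      · right
        refine ⟨W ∩ N, ?_, ?_⟩
        · rw [Finset.mem_powerset]
          intro u hu
          obtain ⟨hu1, hu2⟩ := Finset.mem_inter.1 hu
          have hu3 : u ∈ nbr G U v := by
            rcases Finset.mem_insert.1 hu2 with h | h
            · exact absurd (h ▸ hu1) hvW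
            · exact h
          refine Finset.mem_filter.2 ⟨hu3, fun s hs => ?_⟩
          rw [← hWS] at hs
          exact hWi u hu1 s (Finset.mem_sdiff.1 hs).1
        · rw [← hWS]
          exact Finset.sdiff_union_inter W N
    · rintro (rfl | ⟨T, hT, rfl⟩)
      · refine ⟨⟨Finset.insert_subset hv hSU, ?_⟩, ?_⟩
        · have hvs : ∀ s ∈ S, ¬ G.Adj v s := fun s hs h =>
            hSN s hs (Finset.mem_insert_of_mem (mem_nbr.2 ⟨hSU hs, h⟩))
          intro a ha b hb
          rcases Finset.mem_insert.1 ha with rfl | ha <;> rcases Finset.mem_insert.1 hb with rfl | hb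
          · exact G.loopless.irrefl _
          · exact hvs b hb
          · exact fun h => hvs a ha h.symm
          · exact hSi a ha b hb
        · rw [Finset.insert_sdiff_of_mem _ hNv]
          ext u
          rw [Finset.mem_sdiff]
          exact ⟨fun h => h.1, fun h => ⟨h, hSN u h⟩⟩
      · have hT' : ∀ t ∈ T, t ∈ A := fun t ht => Finset.mem_powerset.1 hT ht
        refine ⟨⟨Finset.union_subset hSU fun t ht => (hAN t (hT' t ht)).1, ?_⟩, ?_⟩
        · intro a ha b hb
          rcases Finset.mem_union.1 ha with ha | ha <;> rcases Finset.mem_union.1 hb with hb | hb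
          · exact hSi a ha b hb
          · exact fun h => (hAN b (hT' b hb)).2.2 a ha h.symm
          · exact (hAN a (hT' a ha)).2.2 b hb
          · exact fun h => hG v a b (hAN a (hT' a ha)).2.1 h (hAN b (hT' b hb)).2.1
        · rw [Finset.union_sdiff_distrib]
          have e1 : T \ N = ∅ := by
            rw [Finset.sdiff_eq_empty_iff_subset]
            intro t ht
            exact Finset.mem_insert_of_mem (mem_nbr.2 ⟨(hAN t (hT' t ht)).1, (hAN t (hT' t ht)).2.1⟩)
          rw [e1, Finset.union_empty]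
          ext u
          rw [Finset.mem_sdiff]
          exact ⟨fun h => h.1, fun h => ⟨h, hSN u h⟩⟩
  have hnot : insert v S ∉ A.powerset.image fun T => S ∪ T := by
    rw [Finset.mem_image]
    rintro ⟨T, hT, h⟩
    have : v ∈ S ∪ T := by rw [h]; exact Finset.mem_insert_self _ _
    rcases Finset.mem_union.1 this with h1 | h1
    · exact hvS h1
    · exact hvA (Finset.mem_powerset.1 hT h1)
  have hinj : Set.InjOn (fun T => S ∪ T) (A.powerset : Set (Finset V)) := by
    intro T hT T' hT' h
    have hT1 : ∀ t ∈ T, t ∈ A := fun t ht => Finset.mem_powerset.1 (Finset.mem_coe.1 hT) ht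
    have hT1' : ∀ t ∈ T', t ∈ A := fun t ht => Finset.mem_powerset.1 (Finset.mem_coe.1 hT') ht
    simp only at h
    ext t
    constructor
    · intro ht
      have : t ∈ S ∪ T' := by rw [← h]; exact Finset.mem_union_right _ ht
      rcases Finset.mem_union.1 this with h1 | h1
      · exact absurd (hT1 t ht) (hSA t h1)
      · exact h1
    · intro ht
      have : t ∈ S ∪ T := by rw [h]; exact Finset.mem_union_right _ ht
      rcases Finset.mem_union.1 this with h1 | h1
      · exact absurd (hT1' t ht) (hSA t h1)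
      · exact h1
  have hfc : ((((inds G U).filter (fun W => W \ N = S)).card : ℕ) : ℝ) = 2 ^ A.card + 1 := by
    rw [hfib, Finset.card_insert_of_notMem hnot, Finset.card_image_of_injOn hinj,
      Finset.card_powerset]
    push_cast
    rfl
  have hfs : d + ∑ T ∈ A.powerset, (T.card : ℝ) ≤
      ∑ W ∈ (inds G U).filter (fun W => W \ N = S), f W := by
    rw [hfib, Finset.sum_insert hnot, Finset.sum_image hinj]
    refine add_le_add ?_ (Finset.sum_le_sum fun T hT => ?_)
    · simp only [hf]
      rw [if_pos (Finset.mem_insert_self _ _)]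
      have : (0 : ℝ) ≤ ((nbr G U v ∩ insert v S).card : ℝ) := by positivity
      linarith
    · simp only [hf]
      have h1 : T ⊆ nbr G U v ∩ (S ∪ T) := by
        intro t ht
        have := Finset.mem_powerset.1 hT ht
        exact Finset.mem_inter.2 ⟨(Finset.mem_filter.1 this).1, Finset.mem_union_right _ ht⟩
      have h2 : (T.card : ℝ) ≤ ((nbr G U v ∩ (S ∪ T)).card : ℝ) := by
        exact_mod_cast Finset.card_le_card h1
      have h3 : (0 : ℝ) ≤ (if v ∈ S ∪ T then d else 0) := by
        split_ifs
        · linarith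
        · exact le_rfl
      linarith
  rw [hfc]
  have h1 := numeric hd A.card
  have h2 := sum_card_powerset A
  linarith

theorem aks (hG : ∀ a b c, G.Adj a b → G.Adj b c → ¬ G.Adj a c) {U : Finset V} {d : ℝ}
    (hd : 1 ≤ d) (hdeg : ∀ v ∈ U, ((nbr G U v).card : ℝ) ≤ d) :
    ∃ I ⊆ U, Ind G I ∧ (U.card : ℝ) * Real.log d / (8 * d) ≤ I.card := by
  classical
  by_contra hcon
  push Not at hcon
  have h0 : ∅ ∈ inds G U := mem_inds.2 ⟨Finset.empty_subset _, ind_empty⟩
  have hne : (inds G U).Nonempty := ⟨_, h0⟩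
  -- double count
  have h1 : ∑ v ∈ U, Real.log d / 4 * (inds G U).card ≤
      ∑ v ∈ U, ∑ W ∈ inds G U, ((if v ∈ W then d else 0) + ((nbr G U v ∩ W).card : ℝ)) :=
    Finset.sum_le_sum fun v hv => local_count hG hd hv
  rw [Finset.sum_comm] at h1
  have h2 : ∀ W ∈ inds G U, ∑ v ∈ U, ((if v ∈ W then d else 0) + ((nbr G U v ∩ W).card : ℝ)) ≤
      2 * d * W.card := by
    intro W hW
    obtain ⟨hWU, -⟩ := mem_inds.1 hW
    rw [Finset.sum_add_distrib]
    have e1 : ∑ v ∈ U, (if v ∈ W then d else 0) = d * W.card := by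
      rw [Finset.sum_ite_mem, Finset.inter_eq_right.2 hWU, Finset.sum_const, nsmul_eq_mul,
        mul_comm]
    have e2 : ∑ v ∈ U, ((nbr G U v ∩ W).card : ℝ) = ∑ w ∈ W, ((nbr G U w).card : ℝ) := by
      have : ∀ v ∈ U, ((nbr G U v ∩ W).card : ℝ) = ∑ w ∈ W, if G.Adj v w then (1 : ℝ) else 0 := by
        intro v _
        rw [Finset.sum_boole]
        congr 2
        ext w
        rw [Finset.mem_inter, mem_nbr, Finset.mem_filter]
        exact ⟨fun h => ⟨h.2, h.1.2⟩, fun h => ⟨⟨hWU h.1, h.2⟩, h.1⟩⟩
      rw [Finset.sum_congr rfl this, Finset.sum_comm]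
      refine Finset.sum_congr rfl fun w _ => ?_
      rw [Finset.sum_boole]
      congr 2
      ext v
      rw [Finset.mem_filter, mem_nbr, G.adj_comm]
    have e3 : ∑ w ∈ W, ((nbr G U w).card : ℝ) ≤ d * W.card := by
      calc ∑ w ∈ W, ((nbr G U w).card : ℝ) ≤ ∑ w ∈ W, d :=
            Finset.sum_le_sum fun w hw => hdeg w (hWU hw)
        _ = d * W.card := by rw [Finset.sum_const, nsmul_eq_mul, mul_comm]
    rw [e1, e2]
    linarith
  have h3 : ∑ W ∈ inds G U, 2 * d * (W.card : ℝ) <
      ∑ W ∈ inds G U, 2 * d * ((U.card : ℝ) * Real.log d / (8 * d)) := by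
    refine Finset.sum_lt_sum_of_nonempty hne fun W hW => ?_
    have := hcon W (mem_inds.1 hW).1 (mem_inds.1 hW).2
    have hd' : 0 < 2 * d := by linarith
    exact mul_lt_mul_of_pos_left this hd'
  have h4 := h1.trans ((Finset.sum_le_sum h2).trans_lt h3).le
  have h5 : ∑ W ∈ inds G U, 2 * d * ((U.card : ℝ) * Real.log d / (8 * d)) =
      ∑ v ∈ U, Real.log d / 4 * (inds G U).card := by
    rw [Finset.sum_const, Finset.sum_const, nsmul_eq_mul, nsmul_eq_mul]
    field_simp
    ring
  have h6 := h1.trans_lt ((Finset.sum_le_sum h2).trans_lt h3)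
  rw [h5] at h6
  exact lt_irrefl _ h6

end Sat3
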