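import Mathlib

/-!
# Saturated colourings and the configurations behind `s_r (K_3)` (definitions)
-/

set_option autoImplicit false

namespace Sat3

/-- `a`, `b`, `d` are distinct and the three edges between them have the same colour. -/
def Mono {V K : Type*} (c : Sym2 V → K) (a b d : V) : Prop :=
  a ≠ b ∧ b ≠ d ∧ a ≠ d ∧ c s(a, b) = c s(b, d) ∧ c s(b, d) = c s(a, d)

/-- The `r`-colouring `c` of the edges of the complete graph on `Fin n` (its values on the diagonal
play no role) has no monochromatic triangle, and every extension `c'` of `c` to the complete graph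
on `Fin (n + 1)` has a monochromatic triangle through the added vertex `Fin.last n`. -/
def Saturated {r n : ℕ} (c : Sym2 (Fin n) → Fin r) : Prop :=
  (∀ a b d, ¬ Mono c a b d) ∧
    ∀ c' : Sym2 (Fin (n + 1)) → Fin r,
      (∀ a b : Fin n, a ≠ b → c' s(a.castSucc, b.castSucc) = c s(a, b)) →
        ∃ a b : Fin n, Mono c' a.castSucc b.castSucc (Fin.last n)

/-- The graph of the edges of colour `i`. -/
def cls {r n : ℕ} (c : Sym2 (Fin n) → Fin r) (i : Fin r) : SimpleGraph (Fin n) where
  Adj a b := a ≠ b ∧ c s(a, b) = i
  symm := ⟨fun a b h => ⟨h.1.symm, by rw [Sym2.eq_swap]; exact h.2⟩⟩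
  loopless := ⟨fun _ h => h.1 rfl⟩

/-- The configurations behind `s_r (K_3)`: pairwise edge-disjoint triangle-free graphs
`G_1, ..., G_r` on `n` vertices such that for every colouring `f` of the vertices with `r` colours
some `G_i` has an edge with both ends of colour `i`. -/
structure Config {r n : ℕ} (G : Fin r → SimpleGraph (Fin n)) : Prop where
  cliqueFree : ∀ i, (G i).CliqueFree 3
  disjoint : ∀ i j, i ≠ j → Disjoint (G i) (G j)
  edge : ∀ f : Fin n → Fin r, ∃ a b, (G (f a)).Adj a b ∧ f a = f b

end Sat3
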