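import Pool.Agent.Work.MP_e09086_co.AKS
import Pool.Agent.Work.MP_e09086_co.Defs

/-!
# The lower bound `κ r ^ 2 log r` for sub-configurations
-/

set_option autoImplicit false
set_option linter.unusedSectionVars false

namespace Sat3

open Finset Classical

variable {V ι : Type*} [DecidableEq V] [DecidableEq ι]

/-- `U` can be coloured with colours of `R` without an edge `a b` of `G_i`, `i = f a = f b` -/
def Ext (G : ι → SimpleGraph V) (U : Finset V) (R : Finset ι) : Prop :=
  ∃ f : V → ι, (∀ u ∈ U, f u ∈ R) ∧ ∀ u ∈ U, ∀ v ∈ U, f u = f v → ¬ (G (f u)).Adj u v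

variable {G : ι → SimpleGraph V}

theorem ext_step {U I : Finset V} {R : Finset ι} {i : ι} (hi : i ∈ R) (hI : Ind (G i) I)
    (h : Ext G (U \ I) (R.erase i)) : Ext G U R := by
  obtain ⟨f, h1, h2⟩ := h
  refine ⟨fun u => if u ∈ I then i else f u, fun u hu => ?_, fun u hu v hv huv => ?_⟩
  · by_cases hu' : u ∈ I
    · simp only [hu', if_true]; exact hi
    · simp only [hu', if_false]
      exact Finset.mem_of_mem_erase (h1 u (Finset.mem_sdiff.2 ⟨hu, hu'⟩))
  · by_cases hu' : u ∈ I <;> by_cases hv' : v ∈ I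
    · simp only [hu', if_true]
      exact hI u hu' v hv'
    · simp only [hu', hv', if_true, if_false] at huv
      have := h1 v (Finset.mem_sdiff.2 ⟨hv, hv'⟩)
      rw [← huv] at this
      exact absurd this (Finset.notMem_erase i R)
    · simp only [hu', hv', if_true, if_false] at huv
      have := h1 u (Finset.mem_sdiff.2 ⟨hu, hu'⟩)
      rw [huv] at this
      exact absurd this (Finset.notMem_erase i R)
    · simp only [hu', hv', if_false] at huv ⊢
      exact h2 u (Finset.mem_sdiff.2 ⟨hu, hu'⟩) v (Finset.mem_sdiff.2 ⟨hv, hv'⟩) huv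

theorem ext_of_card_le [Nonempty ι] {U : Finset V} {R : Finset ι} (h : U.card ≤ R.card) :
    Ext G U R := by
  obtain ⟨R', hR', hc⟩ := Finset.exists_subset_card_eq h
  let e : U ≃ R' := Finset.equivOfCardEq hc.symm
  refine ⟨fun u => if hu : u ∈ U then (e ⟨u, hu⟩ : ι) else Classical.arbitrary ι,
    fun u hu => ?_, fun u hu v hv huv => ?_⟩
  · simp only [hu, dif_pos]
    exact hR' (e ⟨u, hu⟩).2
  · simp only [hu, hv, dif_pos] at huv
    have : (⟨u, hu⟩ : U) = ⟨v, hv⟩ := e.injective (Subtype.ext huv)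
    have huv' : u = v := congrArg Subtype.val this
    rw [huv']
    exact (G _).loopless.irrefl v

theorem ext_mono {U : Finset V} {R R' : Finset ι} (h : R ⊆ R') (hE : Ext G U R) : Ext G U R' := by
  obtain ⟨f, h1, h2⟩ := hE
  exact ⟨f, fun u hu => h (h1 u hu), h2⟩

section Step

variable (htf : ∀ i a b c, (G i).Adj a b → (G i).Adj b c → ¬ (G i).Adj a c)
  (hdj : ∀ i j a b, (G i).Adj a b → (G j).Adj a b → i = j)

include hdj in
theorem exists_sparse {U : Finset V} {R : Finset ι} (hR : R.Nonempty) :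
    ∃ i ∈ R, (R.card : ℝ) * ∑ v ∈ U, ((nbr (G i) U v).card : ℝ) ≤ (U.card : ℝ) ^ 2 := by
  have h1 : ∑ i ∈ R, ∑ v ∈ U, ((nbr (G i) U v).card : ℝ) ≤ (U.card : ℝ) ^ 2 := by
    rw [Finset.sum_comm]
    have h2 : ∀ v ∈ U, ∑ i ∈ R, ((nbr (G i) U v).card : ℝ) ≤ U.card := by
      intro v _
      have hd : (R : Set ι).PairwiseDisjoint fun i => nbr (G i) U v := by
        intro i _ j _ hij
        rw [Function.onFun, Finset.disjoint_left]
        intro a ha hb
        exact hij (hdj i j v a (mem_nbr.1 ha).2 (mem_nbr.1 hb).2)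
      have h3 : ∑ i ∈ R, (nbr (G i) U v).card = (R.biUnion fun i => nbr (G i) U v).card :=
        (Finset.card_biUnion fun i hi j hj hij => hd hi hj hij).symm
      have h4 : (R.biUnion fun i => nbr (G i) U v).card ≤ U.card := by
        refine Finset.card_le_card fun a ha => ?_
        obtain ⟨i, -, hi⟩ := Finset.mem_biUnion.1 ha
        exact (mem_nbr.1 hi).1
      exact_mod_cast h3.trans_le h4
    calc ∑ v ∈ U, ∑ i ∈ R, ((nbr (G i) U v).card : ℝ) ≤ ∑ v ∈ U, (U.card : ℝ) :=
          Finset.sum_le_sum h2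
      _ = (U.card : ℝ) ^ 2 := by rw [Finset.sum_const, nsmul_eq_mul, sq]
  by_contra hcon
  push Not at hcon
  have h5 : ∑ i ∈ R, (U.card : ℝ) ^ 2 <
      ∑ i ∈ R, (R.card : ℝ) * ∑ v ∈ U, ((nbr (G i) U v).card : ℝ) :=
    Finset.sum_lt_sum_of_nonempty hR hcon
  rw [Finset.sum_const, nsmul_eq_mul, ← Finset.mul_sum] at h5
  have hRpos : (0 : ℝ) < R.card := by exact_mod_cast hR.card_pos
  have h6 := lt_of_mul_lt_mul_left h5 hRpos.le
  linarith

include htf hdj in
theorem exists_ind {U : Finset V} {R : Finset ι} (hR : R.Nonempty) (hc : R.card ≤ U.card) :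
    ∃ i ∈ R, ∃ I ⊆ U, Ind (G i) I ∧
      (R.card : ℝ) * Real.log (4 * U.card / R.card) / 64 ≤ I.card := by
  obtain ⟨i, hi, hs⟩ := exists_sparse (G := G) hdj (U := U) hR
  have hk : (0 : ℝ) < R.card := by exact_mod_cast hR.card_pos
  have hm : (R.card : ℝ) ≤ U.card := by exact_mod_cast hc
  have hm0 : (0 : ℝ) < U.card := lt_of_lt_of_le hk hm
  set U' : Finset V := U.filter fun v => ((nbr (G i) U v).card : ℝ) ≤ 4 * U.card / R.card with hU'
  have hsub : U' ⊆ U := Finset.filter_subset _ _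
  have hbad : (((U \ U').card : ℕ) : ℝ) * (4 * U.card / R.card) ≤
      ∑ v ∈ U, ((nbr (G i) U v).card : ℝ) := by
    calc (((U \ U').card : ℕ) : ℝ) * (4 * U.card / R.card) =
          ∑ v ∈ U \ U', (4 * U.card / R.card : ℝ) := by rw [Finset.sum_const, nsmul_eq_mul]
      _ ≤ ∑ v ∈ U \ U', ((nbr (G i) U v).card : ℝ) := by
          refine Finset.sum_le_sum fun v hv => ?_
          obtain ⟨hv1, hv2⟩ := Finset.mem_sdiff.1 hv
          by_contra hlt
          push Not at hlt
          exact hv2 (Finset.mem_filter.2 ⟨hv1, hlt.le⟩)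
      _ ≤ ∑ v ∈ U, ((nbr (G i) U v).card : ℝ) :=
          Finset.sum_le_sum_of_subset_of_nonneg Finset.sdiff_subset fun _ _ _ => by positivity
  have hbad2 : (((U \ U').card : ℕ) : ℝ) ≤ U.card / 4 := by
    have h1 : (R.card : ℝ) * ((((U \ U').card : ℕ) : ℝ) * (4 * U.card / R.card)) ≤
        (U.card : ℝ) ^ 2 := (mul_le_mul_of_nonneg_left hbad hk.le).trans hs
    have h2 : (R.card : ℝ) * ((((U \ U').card : ℕ) : ℝ) * (4 * U.card / R.card)) =
        (((U \ U').card : ℕ) : ℝ) * 4 * U.card := by field_simp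
    rw [h2, sq] at h1
    have h3 := le_of_mul_le_mul_right h1 hm0
    linarith
  have hU'card : (U.card : ℝ) / 2 ≤ U'.card := by
    have h1 : (((U \ U').card : ℕ) : ℝ) = U.card - U'.card := by
      rw [Finset.card_sdiff_of_subset hsub, Nat.cast_sub (Finset.card_le_card hsub)]
    rw [h1] at hbad2
    linarith
  have hd4 : (4 : ℝ) ≤ 4 * U.card / R.card := by
    rw [le_div_iff₀ hk]; linarith
  obtain ⟨I, hIU, hI, hIc⟩ := aks (G := G i) (htf i) (U := U') (d := 4 * U.card / R.card)
    (by linarith) (fun v hv => by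
      obtain ⟨-, hv2⟩ := Finset.mem_filter.1 hv
      refine le_trans ?_ hv2
      exact_mod_cast Finset.card_le_card fun a ha => by
        obtain ⟨h1, h2⟩ := mem_nbr.1 ha
        exact mem_nbr.2 ⟨hsub h1, h2⟩)
  refine ⟨i, hi, I, hIU.trans hsub, hI, le_trans ?_ hIc⟩
  have hlog : 0 ≤ Real.log (4 * U.card / R.card) := Real.log_nonneg (by linarith)
  rw [div_le_div_iff₀ (by norm_num) (by positivity)]
  have e1 : (R.card : ℝ) * Real.log (4 * U.card / R.card) * (8 * (4 * U.card / R.card)) =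
      Real.log (4 * U.card / R.card) * (32 * U.card) := by
    field_simp
    ring
  rw [e1]
  have e2 : (U'.card : ℝ) * Real.log (4 * U.card / R.card) * 64 =
      Real.log (4 * U.card / R.card) * (64 * U'.card) := by ring
  rw [e2]
  exact mul_le_mul_of_nonneg_left (by linarith) hlog

/-- iteration -/
theorem iter {δ m₁ : ℝ} {k₀ : ℕ}
    (hstep : ∀ (U : Finset V) (R : Finset ι), k₀ ≤ R.card → m₁ ≤ U.card →
      ∃ i ∈ R, ∃ I ⊆ U, Ind (G i) I ∧ δ ≤ I.card)
    (hend : ∀ (U : Finset V) (R : Finset ι), k₀ ≤ R.card → (U.card : ℝ) < m₁ → Ext G U R) :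
    ∀ (q : ℕ) (U : Finset V) (R : Finset ι), k₀ + q ≤ R.card →
      (U.card : ℝ) < m₁ + q * δ → Ext G U R := by
  intro q
  induction q with
  | zero =>
    intro U R hR hU
    exact hend U R hR (by simpa using hU)
  | succ q ih =>
    intro U R hR hU
    rcases lt_or_ge (U.card : ℝ) m₁ with h | h
    · exact hend U R (by omega) h
    · obtain ⟨i, hi, I, hIU, hI, hc⟩ := hstep U R (by omega) h
      refine ext_step hi hI (ih _ _ ?_ ?_)
      · rw [Finset.card_erase_of_mem hi]; omega
      · rw [Finset.card_sdiff_of_subset hIU, Nat.cast_sub (Finset.card_le_card hIU)]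
        push_cast at hU
        linarith

end Step

/-- the lower bound -/
theorem lower {r : ℕ} (hr : 2 ≤ r) {G : Fin r → SimpleGraph V}
    (htf : ∀ i a b c, (G i).Adj a b → (G i).Adj b c → ¬ (G i).Adj a c)
    (hdj : ∀ i j a b, (G i).Adj a b → (G j).Adj a b → i = j)
    {U : Finset V} {R : Finset (Fin r)} (hR : r ≤ 3 * R.card) (hU : ¬ Ext G U R) :
    (1 / 10 ^ 24 : ℝ) * ((r : ℝ) ^ 2 * Real.log r) ≤ U.card := by
  haveI : Nonempty (Fin r) := ⟨⟨0, by omega⟩⟩
  have hr0 : (2 : ℝ) ≤ r := by exact_mod_cast hr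
  have hlogr : Real.log r ≤ r := (Real.log_le_sub_one_of_pos (by linarith)).trans (by linarith)
  have hlog0 : 0 ≤ Real.log r := Real.log_nonneg (by linarith)
  rcases lt_or_ge r (10 ^ 8) with hsmall | hbig
  · have h1 : (1 : ℝ) ≤ U.card := by
      have : U.card ≠ 0 := by
        intro h
        exact hU (ext_of_card_le (by omega))
      exact_mod_cast Nat.one_le_iff_ne_zero.2 this
    have h2 : (r : ℝ) ≤ 10 ^ 8 := by exact_mod_cast hsmall.le
    have h3 : (r : ℝ) ^ 2 * Real.log r ≤ 10 ^ 24 := by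
      calc (r : ℝ) ^ 2 * Real.log r ≤ (r : ℝ) ^ 2 * r :=
            mul_le_mul_of_nonneg_left hlogr (by positivity)
        _ = (r : ℝ) ^ 3 := by ring
        _ ≤ (10 ^ 8) ^ 3 := pow_le_pow_left₀ (by linarith) h2 3
        _ = 10 ^ 24 := by norm_num
    calc (1 / 10 ^ 24 : ℝ) * ((r : ℝ) ^ 2 * Real.log r) ≤ (1 / 10 ^ 24) * 10 ^ 24 :=
          mul_le_mul_of_nonneg_left h3 (by positivity)
      _ = 1 := by norm_num
      _ ≤ U.card := h1
  · by_contra hlt
    push Not at hlt
    apply hU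
    have hrb : (10 ^ 8 : ℝ) ≤ r := by exact_mod_cast hbig
    set k₀ : ℕ := r / 4 with hk₀
    set q : ℕ := r / 24 with hq
    have hk₀r : (r : ℝ) / 5 ≤ k₀ := by
      have : r ≤ 5 * k₀ := by omega
      have : (r : ℝ) ≤ 5 * k₀ := by exact_mod_cast this
      linarith
    have hqr : (r : ℝ) / 25 ≤ q := by
      have : r ≤ 25 * q := by omega
      have : (r : ℝ) ≤ 25 * q := by exact_mod_cast this
      linarith
    have hkq : ((k₀ + q : ℕ) : ℝ) ≤ r := by
      have : k₀ + q ≤ r := by omega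
      exact_mod_cast this
    have hk₀pos : 0 < k₀ := by omega
    set s : ℝ := Real.sqrt r with hs
    have hss : s * s = r := Real.mul_self_sqrt (by linarith)
    have hs4 : (10 ^ 4 : ℝ) ≤ s := by
      rw [hs]
      exact Real.le_sqrt_of_sq_le (by nlinarith)
    -- one step
    have hone : ∀ (k : ℕ) (m₁ : ℝ), 0 < k → (k : ℝ) ≤ m₁ → ∀ (U : Finset V) (R : Finset (Fin r)),
        k ≤ R.card → m₁ ≤ U.card → ∃ i ∈ R, ∃ I ⊆ U, Ind (G i) I ∧
          (k : ℝ) * Real.log (4 * m₁ / k) / 64 ≤ I.card := by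
      intro k m₁ hk hkm U R hkR hmU
      obtain ⟨R', hR', hR'c⟩ := Finset.exists_subset_card_eq hkR
      have hk' : (0 : ℝ) < k := by exact_mod_cast hk
      have hne : R'.Nonempty := by
        rw [← Finset.card_pos, hR'c]; exact hk
      have hle : R'.card ≤ U.card := by
        rw [hR'c]
        exact_mod_cast hkm.trans hmU
      obtain ⟨i, hi, I, hIU, hI, hc⟩ := exists_ind htf hdj hne hle
      refine ⟨i, hR' hi, I, hIU, hI, le_trans ?_ hc⟩
      rw [hR'c]
      have h1 : 4 * m₁ / k ≤ 4 * U.card / k := by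
        apply div_le_div_of_nonneg_right _ hk'.le
        linarith
      have h2 : Real.log (4 * m₁ / k) ≤ Real.log (4 * U.card / k) :=
        Real.log_le_log (by positivity [hk'.trans_le hkm]) h1
      apply div_le_div_of_nonneg_right _ (by norm_num)
      exact mul_le_mul_of_nonneg_left h2 hk'.le
    -- second phase
    have hk₀' : (0 : ℝ) < k₀ := by exact_mod_cast hk₀pos
    have hlog4 : (1 : ℝ) ≤ Real.log 4 := by
      rw [show (4 : ℝ) = 2 ^ 2 by norm_num, Real.log_pow]
      have := Real.log_two_gt_d9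
      push_cast
      linarith
    have hph2 : ∀ (U : Finset V) (R : Finset (Fin r)), k₀ + q ≤ R.card →
        (U.card : ℝ) < k₀ + q * ((k₀ : ℝ) / 64) → Ext G U R := by
      refine iter (fun U R hkR hmU => ?_) (fun U R hkR hUk => ?_) q
      · obtain ⟨i, hi, I, hIU, hI, hc⟩ := hone k₀ k₀ hk₀pos le_rfl U R hkR hmU
        refine ⟨i, hi, I, hIU, hI, le_trans ?_ hc⟩
        have : (4 * (k₀ : ℝ) / k₀) = 4 := by field_simp
        rw [this]
        apply div_le_div_of_nonneg_right _ (by norm_num)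
        nlinarith
      · refine ext_of_card_le (le_trans ?_ hkR)
        exact_mod_cast hUk.le
    -- first phase
    have hsr : (r : ℝ) * s ≤ k₀ + q * ((k₀ : ℝ) / 64) := by
      have h1 : (r : ℝ) / 25 * ((r : ℝ) / 5 / 64) ≤ q * ((k₀ : ℝ) / 64) := by
        apply mul_le_mul hqr _ (by positivity) (by positivity)
        apply div_le_div_of_nonneg_right hk₀r (by norm_num)
      have h2 : (r : ℝ) * s ≤ (r : ℝ) / 25 * ((r : ℝ) / 5 / 64) := by
        have : (r : ℝ) / 25 * ((r : ℝ) / 5 / 64) = (r : ℝ) * (s * s / 8000) := by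
          rw [hss]; ring
        rw [this]
        apply mul_le_mul_of_nonneg_left _ (by linarith)
        nlinarith
      linarith
    have hph1 : ∀ (U : Finset V) (R : Finset (Fin r)), (k₀ + q) + q ≤ R.card →
        (U.card : ℝ) < (r : ℝ) * s + q * ((r : ℝ) * Real.log r / 640) → Ext G U R := by
      refine iter (fun U R hkR hmU => ?_) (fun U R hkR hUk => ?_) q
      · have hkqpos : 0 < k₀ + q := by omega
        have hle : (((k₀ + q : ℕ)) : ℝ) ≤ (r : ℝ) * s := by
          refine hkq.trans ?_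
          nlinarith
        obtain ⟨i, hi, I, hIU, hI, hc⟩ := hone (k₀ + q) (r * s) hkqpos hle U R hkR hmU
        refine ⟨i, hi, I, hIU, hI, le_trans ?_ hc⟩
        have hk5 : (r : ℝ) / 5 ≤ ((k₀ + q : ℕ) : ℝ) := by
          push_cast
          have : (0 : ℝ) ≤ q := by positivity
          linarith
        have hkpos : (0 : ℝ) < ((k₀ + q : ℕ) : ℝ) := by exact_mod_cast hkqpos
        have h1 : s ≤ 4 * (r * s) / ((k₀ + q : ℕ) : ℝ) := by
          rw [le_div_iff₀ hkpos]
          nlinarith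
        have h2 : Real.log r / 2 ≤ Real.log (4 * (r * s) / ((k₀ + q : ℕ) : ℝ)) := by
          rw [← Real.log_sqrt (by linarith)]
          exact Real.log_le_log (by linarith) h1
        have h3 : (r : ℝ) / 5 * (Real.log r / 2) ≤
            ((k₀ + q : ℕ) : ℝ) * Real.log (4 * (r * s) / ((k₀ + q : ℕ) : ℝ)) :=
          mul_le_mul hk5 h2 (by positivity) (by positivity)
        have h4 : (r : ℝ) * Real.log r / 640 = (r : ℝ) / 5 * (Real.log r / 2) / 64 := by ring
        rw [h4]
        exact div_le_div_of_nonneg_right h3 (by norm_num)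
      · exact hph2 U R hkR (hUk.trans_le hsr)
    refine hph1 U R (by omega) ?_
    have h1 : (r : ℝ) / 25 * ((r : ℝ) * Real.log r / 640) ≤ q * ((r : ℝ) * Real.log r / 640) :=
      mul_le_mul_of_nonneg_right hqr (by positivity)
    have h2 : (1 / 10 ^ 24 : ℝ) * ((r : ℝ) ^ 2 * Real.log r) ≤
        (r : ℝ) / 25 * ((r : ℝ) * Real.log r / 640) := by
      have : (r : ℝ) / 25 * ((r : ℝ) * Real.log r / 640) =
          (1 / 16000) * ((r : ℝ) ^ 2 * Real.log r) := by ring
      rw [this]
      apply mul_le_mul_of_nonneg_right (by norm_num) (by positivity)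
    have h3 : 0 ≤ (r : ℝ) * s := by positivity
    linarith

end Sat3
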