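import Pool.Agent.Work.MP_e09086_co.LB

/-!
# Structure of saturated colourings
-/

set_option autoImplicit false

namespace Sat3

open Finset Classical

variable {r n : ℕ}

theorem Config.tf {G : Fin r → SimpleGraph (Fin n)} (h : Config G) :
    ∀ i a b c, (G i).Adj a b → (G i).Adj b c → ¬ (G i).Adj a c := by
  intro i a b c hab hbc hac
  refine h.cliqueFree i {a, b, c} ?_
  rw [SimpleGraph.is3Clique_triple_iff]
  exact ⟨hab, hac, hbc⟩

theorem Config.dj {G : Fin r → SimpleGraph (Fin n)} (h : Config G) :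
    ∀ i j a b, (G i).Adj a b → (G j).Adj a b → i = j := by
  intro i j a b h1 h2
  by_contra hij
  have h3 := (disjoint_iff.1 (h.disjoint i j hij))
  have h4 : (G i ⊓ G j).Adj a b := ⟨h1, h2⟩
  rw [h3] at h4
  exact h4

theorem Config.not_ext {G : Fin r → SimpleGraph (Fin n)} (h : Config G) :
    ¬ Ext G Finset.univ Finset.univ := by
  rintro ⟨f, -, h2⟩
  obtain ⟨a, b, h3, h4⟩ := h.edge f
  exact h2 a (Finset.mem_univ _) b (Finset.mem_univ _) h4 h3

theorem ind_iff {V : Type*} [DecidableEq V] {G : SimpleGraph V} {I : Finset V} :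
    Ind G I ↔ G.IsIndepSet (I : Set V) := by
  rw [SimpleGraph.isIndepSet_iff]
  constructor
  · intro h a ha b hb _
    exact h a (Finset.mem_coe.1 ha) b (Finset.mem_coe.1 hb)
  · intro h a ha b hb hab
    exact h (Finset.mem_coe.2 ha) (Finset.mem_coe.2 hb) hab.ne hab

/-- the extension of `c` by `f` -/
def extend (hr : 0 < r) (c : Sym2 (Fin n) → Fin r) (f : Fin n → Fin r) :
    Sym2 (Fin (n + 1)) → Fin r :=
  Sym2.lift ⟨fun x y => if hx : x = Fin.last n then
      (if hy : y = Fin.last n then ⟨0, hr⟩ else f (y.castPred hy))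
    else if hy : y = Fin.last n then f (x.castPred hx)
    else c s(x.castPred hx, y.castPred hy), by
      intro x y
      by_cases hx : x = Fin.last n <;> by_cases hy : y = Fin.last n <;> simp [hx, hy]
      rw [Sym2.eq_swap]⟩

theorem extend_cast (hr : 0 < r) (c : Sym2 (Fin n) → Fin r) (f : Fin n → Fin r) (a b : Fin n) :
    extend hr c f s(a.castSucc, b.castSucc) = c s(a, b) := by
  unfold extend
  rw [Sym2.lift_mk]
  simp only [Fin.castSucc_ne_last, dif_neg, not_false_eq_true, Fin.castPred_castSucc]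

theorem extend_last (hr : 0 < r) (c : Sym2 (Fin n) → Fin r) (f : Fin n → Fin r) (a : Fin n) :
    extend hr c f s(a.castSucc, Fin.last n) = f a := by
  unfold extend
  rw [Sym2.lift_mk]
  simp only [Fin.castSucc_ne_last, dif_neg, not_false_eq_true, Fin.castPred_castSucc, dif_pos]

/-- the colour classes of a saturated colouring -/
theorem Saturated.config (hr : 0 < r) {c : Sym2 (Fin n) → Fin r} (hc : Saturated c) :
    Config (cls c) where
  cliqueFree := by
    intro i s hs
    rw [SimpleGraph.is3Clique_iff] at hs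
    obtain ⟨a, b, d, hab, had, hbd, rfl⟩ := hs
    exact hc.1 a b d ⟨hab.1, hbd.1, had.1, by rw [hab.2, hbd.2], by rw [hbd.2, had.2]⟩
  disjoint := by
    intro i j hij
    rw [disjoint_iff]
    ext a b
    constructor
    · rintro ⟨h1, h2⟩
      exact absurd (h1.2.symm.trans h2.2) hij
    · intro h
      exact absurd h (by simp)
  edge := by
    intro f
    obtain ⟨a, b, h1, h2, h3, h4, h5⟩ := hc.2 (extend hr c f) fun a b _ => extend_cast hr c f a b
    rw [extend_cast, extend_last] at h4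
    rw [extend_last, extend_last] at h5
    exact ⟨a, b, ⟨fun h => h1 (by rw [h]), by rw [h4, h5]⟩, h5.symm⟩

theorem pos_of_config (hr : 2 ≤ r) {G : Fin r → SimpleGraph (Fin n)} (h : Config G) :
    (0 : ℝ) < n := by
  obtain ⟨a, -⟩ := h.edge fun _ => ⟨0, by omega⟩
  exact_mod_cast a.pos

/-- a common vertex set on which most classes have small independence number -/
theorem common_set : ∃ κ : ℝ, 0 < κ ∧ ∀ r n : ℕ, 2 ≤ r → ∀ G : Fin r → SimpleGraph (Fin n),
    Config G → ∀ t : ℕ, 1 ≤ t → 3 * t ≤ 2 * r →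
      ∃ U : Finset (Fin n), κ * ((r : ℝ) ^ 2 * Real.log r) ≤ U.card ∧
        ∃ T : Finset (Fin r), T.card < t ∧ ∀ i ∉ T, ∀ I ⊆ U, (G i).IsIndepSet I →
          (I.card : ℝ) ≤ Real.log (n / (κ * ((r : ℝ) ^ 2 * Real.log r))) / t * U.card := by
  refine ⟨1 / 10 ^ 24, by norm_num, fun r n hr G h t ht htr => ?_⟩
  set κ : ℝ := (1 / 10 ^ 24 : ℝ) * ((r : ℝ) ^ 2 * Real.log r) with hκ
  have hr2 : (2 : ℝ) ≤ r := by exact_mod_cast hr
  have hκ0 : 0 < κ := by
    have := Real.log_pos (by linarith : (1 : ℝ) < r)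
    positivity
  have hn0 := pos_of_config hr h
  have hlow : ∀ U : Finset (Fin n), ∀ R : Finset (Fin r), r ≤ 3 * R.card → ¬ Ext G U R →
      κ ≤ U.card := fun U R hR hU => lower hr h.tf h.dj hR hU
  by_contra hcon
  push Not at hcon
  set θ : ℝ := Real.log (n / κ) / t with hθ
  have ht0 : (0 : ℝ) < t := by exact_mod_cast ht
  -- the greedy procedure for `t - 1` steps, then one more strict step
  have hstep : ∀ U : Finset (Fin n), ∀ T : Finset (Fin r), T.card < t → κ ≤ U.card →
      ∃ i ∉ T, ∃ I ⊆ U, Ind (G i) I ∧ θ * U.card < I.card := by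
    intro U T hT hU
    obtain ⟨i, hi, I, hIU, hI, hc⟩ := hcon U hU T hT
    exact ⟨i, hi, I, hIU, ind_iff.2 hI, hc⟩
  have hmain : ∀ j : ℕ, j ≤ t → ∃ (U : Finset (Fin n)) (T : Finset (Fin r)), T.card = j ∧
      ¬ Ext G U Tᶜ ∧ (U.card : ℝ) ≤ n * Real.exp (-(θ * j)) ∧
        (1 ≤ j → (U.card : ℝ) < n * Real.exp (-(θ * j))) := by
    intro j
    induction j with
    | zero =>
      intro _
      refine ⟨Finset.univ, ∅, rfl, ?_, ?_, ?_⟩
      · rw [Finset.compl_empty]; exact h.not_ext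
      · simp
      · intro h0; omega
    | succ j ih =>
      intro hj
      obtain ⟨U, T, hT, hU, hc, -⟩ := ih (by omega)
      have hTc : Tᶜ.card = r - j := by
        rw [Finset.card_compl, Fintype.card_fin, hT]
      have hUκ := hlow U Tᶜ (by omega) hU
      obtain ⟨i, hi, I, hIU, hI, hIc⟩ := hstep U T (by omega) hUκ
      have hlt : (((U \ I).card : ℕ) : ℝ) < n * Real.exp (-(θ * (j + 1 : ℕ))) := by
        rw [Finset.card_sdiff_of_subset hIU, Nat.cast_sub (Finset.card_le_card hIU)]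
        have h1 : (U.card : ℝ) - I.card < U.card * Real.exp (-θ) := by
          have := Real.add_one_le_exp (-θ)
          have hU0 : (0 : ℝ) ≤ U.card := by positivity
          nlinarith
        have h2 : (U.card : ℝ) * Real.exp (-θ) ≤ n * Real.exp (-(θ * j)) * Real.exp (-θ) :=
          mul_le_mul_of_nonneg_right hc (Real.exp_pos _).le
        have h4 : (n : ℝ) * Real.exp (-(θ * j)) * Real.exp (-θ) =
            n * Real.exp (-(θ * (j + 1 : ℕ))) := by
          rw [mul_assoc, ← Real.exp_add]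
          congr 2
          push_cast
          ring
        linarith
      refine ⟨U \ I, insert i T, ?_, ?_, hlt.le, fun _ => hlt⟩
      · rw [Finset.card_insert_of_notMem hi, hT]
      · intro hE
        refine hU (ext_step (Finset.mem_compl.2 hi) hI ?_)
        rw [Finset.compl_insert] at hE
        exact hE
  obtain ⟨U, T, hT, hU, -, hlt⟩ := hmain t le_rfl
  have hTc : Tᶜ.card = r - t := by
    rw [Finset.card_compl, Fintype.card_fin, hT]
  have h1 := hlow U Tᶜ (by omega) hU
  have h2 := hlt ht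
  have h3 : (n : ℝ) * Real.exp (-(θ * t)) = κ := by
    have e1 : θ * t = Real.log (n / κ) := by
      rw [hθ]; field_simp
    rw [e1, Real.exp_neg, Real.exp_log (by positivity)]
    field_simp
  linarith

/-- `∑ 1 / ρ ≤ 2 log (n / (κ r ^ 2 log r))` -/
theorem hall_sum : ∃ κ : ℝ, 0 < κ ∧ ∀ r n : ℕ, 2 ≤ r → ∀ G : Fin r → SimpleGraph (Fin n),
    Config G → ∀ ρ : Fin r → ℝ,
      (∀ i, ∀ W : Finset (Fin n), ∃ I ⊆ W, (G i).IsIndepSet I ∧
        (W.card : ℝ) ≤ ρ i * I.card) →
      ∑ i, (ρ i)⁻¹ ≤ 2 * Real.log (n / (κ * ((r : ℝ) ^ 2 * Real.log r))) := by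
  refine ⟨1 / 10 ^ 24, by norm_num, fun r n hr G h ρ hρ => ?_⟩
  set κ : ℝ := (1 / 10 ^ 24 : ℝ) * ((r : ℝ) ^ 2 * Real.log r) with hκ
  have hr2 : (2 : ℝ) ≤ r := by exact_mod_cast hr
  have hκ0 : 0 < κ := by
    have := Real.log_pos (by linarith : (1 : ℝ) < r)
    positivity
  have hn0 := pos_of_config hr h
  have hlow : ∀ U : Finset (Fin n), ∀ R : Finset (Fin r), r ≤ 3 * R.card → ¬ Ext G U R →
      κ ≤ U.card := fun U R hR hU => lower hr h.tf h.dj hR hU
  have hρ0 : ∀ i, 0 < ρ i := by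
    intro i
    have hn : 0 < n := by exact_mod_cast hn0
    obtain ⟨I, -, -, hI⟩ := hρ i {⟨0, hn⟩}
    rw [Finset.card_singleton, Nat.cast_one] at hI
    by_contra hneg
    push Not at hneg
    have : ρ i * I.card ≤ 0 := mul_nonpos_of_nonpos_of_nonneg hneg (by positivity)
    linarith
  have key : ∀ S : Finset (Fin r), ∃ U : Finset (Fin n), ¬ Ext G U Sᶜ ∧
      (U.card : ℝ) ≤ n * Real.exp (-∑ i ∈ S, (ρ i)⁻¹) := by
    intro S
    induction S using Finset.induction_on with
    | empty =>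
      refine ⟨Finset.univ, ?_, by simp⟩
      rw [Finset.compl_empty]; exact h.not_ext
    | insert i S hi ih =>
      obtain ⟨U, hU, hc⟩ := ih
      obtain ⟨I, hIU, hI, hIc⟩ := hρ i U
      refine ⟨U \ I, ?_, ?_⟩
      · intro hE
        refine hU (ext_step (Finset.mem_compl.2 hi) (ind_iff.2 hI) ?_)
        rw [Finset.compl_insert] at hE
        exact hE
      · rw [Finset.card_sdiff_of_subset hIU, Nat.cast_sub (Finset.card_le_card hIU),
          Finset.sum_insert hi]
        have h0 : (ρ i)⁻¹ * U.card ≤ I.card := by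
          rw [inv_mul_le_iff₀ (hρ0 i)]; exact hIc
        have h1 : (U.card : ℝ) - I.card ≤ U.card * Real.exp (-(ρ i)⁻¹) := by
          have := Real.add_one_le_exp (-(ρ i)⁻¹)
          have hU0 : (0 : ℝ) ≤ U.card := by positivity
          nlinarith
        have h2 : (U.card : ℝ) * Real.exp (-(ρ i)⁻¹) ≤
            n * Real.exp (-∑ i ∈ S, (ρ i)⁻¹) * Real.exp (-(ρ i)⁻¹) :=
          mul_le_mul_of_nonneg_right hc (Real.exp_pos _).le
        have h4 : (n : ℝ) * Real.exp (-∑ i ∈ S, (ρ i)⁻¹) * Real.exp (-(ρ i)⁻¹) =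
            n * Real.exp (-((ρ i)⁻¹ + ∑ i ∈ S, (ρ i)⁻¹)) := by
          rw [mul_assoc, ← Real.exp_add]
          congr 2
          ring
        linarith
  have half : ∀ S : Finset (Fin r), r ≤ 3 * Sᶜ.card → ∑ i ∈ S, (ρ i)⁻¹ ≤ Real.log (n / κ) := by
    intro S hS
    obtain ⟨U, hU, hc⟩ := key S
    have h1 := (hlow U Sᶜ hS hU).trans hc
    rw [Real.le_log_iff_exp_le (by positivity), le_div_iff₀ hκ0]
    have h2 : Real.exp (∑ i ∈ S, (ρ i)⁻¹) * κ ≤
        Real.exp (∑ i ∈ S, (ρ i)⁻¹) * (n * Real.exp (-∑ i ∈ S, (ρ i)⁻¹)) :=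
      mul_le_mul_of_nonneg_left h1 (Real.exp_pos _).le
    have h3 : Real.exp (∑ i ∈ S, (ρ i)⁻¹) * (n * Real.exp (-∑ i ∈ S, (ρ i)⁻¹)) = n := by
      rw [mul_left_comm, ← Real.exp_add, add_neg_cancel, Real.exp_zero, mul_one]
    linarith
  obtain ⟨S, -, hS⟩ := Finset.exists_subset_card_eq (s := (Finset.univ : Finset (Fin r)))
    (n := r / 2) (by rw [Finset.card_univ, Fintype.card_fin]; omega)
  have hSc : Sᶜ.card = r - r / 2 := by rw [Finset.card_compl, Fintype.card_fin, hS]
  have h1 := half S (by omega)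
  have h2 := half Sᶜ (by rw [compl_compl]; omega)
  rw [← Finset.sum_add_sum_compl S]
  linarith

end Sat3
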